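import Mathlib
import Pool.Agent.H47.UnitAdd

namespace Pool.Agent.Results.MP_80f852_al.Small
open Pool.Agent.H47.UnitAdd Matrix

theorem result (n : ℕ) (x : Fin n → ℤ) : ∃ y : Fin n → ℤ, (∀ i, |y i| ≤ 2 ^ (n - 1)) ∧
    (∀ i, x i = 1 → y i = 1) ∧ ∀ i j k, x k = x i + x j → y k = y i + y j := by
  by_cases h : ∃ i, x i = 1
  swap
  · exact ⟨0, fun i => by simp, fun i hi => absurd ⟨i, hi⟩ h, by simp⟩
  obtain ⟨i0, h0⟩ := h
  obtain ⟨A, F, a, b, hd, hn, hb, hx, hc, ha, hy⟩ :=
    core (fun i => (x i : ℚ)) i0 (by simpa using h0)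
  let m : Fin n → ℤ := fun i => if i ∈ F then (A *ᵥ x) i / A.det else 0
  let t : Fin n → ℤ := fun i => if i ∈ F then (A *ᵥ x) i % A.det else 0
  let y : Fin n → ℤ := x - adjugate A *ᵥ m
  have h1 : A *ᵥ y = b + t := by
    funext i
    simp only [y, mulVec_sub, mulVec_mulVec, mul_adjugate, smul_mulVec, one_mulVec, Pi.sub_apply,
      Pi.add_apply, Pi.smul_apply, smul_eq_mul, m, t]
    split_ifs with hi
    · rw [hb i hi, Int.emod_def, zero_add]
    · have : (A *ᵥ x) i = b i := by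
        simp only [mulVec, dotProduct]; exact_mod_cast hx i hi
      simp [this]
  have h2 : A.det • y = cramer A b + adjugate A *ᵥ t := by
    rw [cramer_eq_adjugate_mulVec, ← mulVec_add, ← h1, mulVec_mulVec, adjugate_mul, smul_mulVec,
      one_mulVec]
  obtain ⟨k1, k2⟩ := hy (fun i => y i) fun i hi => by
    have := congrFun h1 i
    simp only [mulVec, dotProduct, Pi.add_apply, t, if_neg hi, add_zero] at this
    exact_mod_cast this
  refine ⟨y, fun l => ?_, fun i hi => by exact_mod_cast k1 i (by simpa using hi),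
    fun i j k h => by exact_mod_cast (k2 i j k (by rw [h]; simp)).symm⟩
  have h3 : |(adjugate A *ᵥ t) l| ≤ F.card * (2 ^ a * |A.det|) := by
    simp only [mulVec, dotProduct, t, mul_ite, mul_zero, Finset.sum_ite_mem, Finset.univ_inter]
    refine (Finset.abs_sum_le_sum_abs _ _).trans ?_
    rw [← nsmul_eq_mul]
    refine Finset.sum_le_card_nsmul _ _ _ fun i hi => ?_
    rw [abs_mul, abs_of_nonneg (Int.emod_nonneg _ hd)]
    exact mul_le_mul (ha l i hi) (Int.emod_lt_abs _ hd).le (Int.emod_nonneg _ hd) (by positivity)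
  have h4 := congrArg (fun v => |v l|) h2
  simp only [Pi.smul_apply, smul_eq_mul, abs_mul, Pi.add_apply] at h4
  have h5 := abs_add_le (cramer A b l) ((adjugate A *ᵥ t) l)
  have h6 := Int.one_le_abs hd
  have h7 : |y l| ≤ 2 ^ a * (F.card + 1) := by
    refine le_of_mul_le_mul_left ?_ (lt_of_lt_of_le one_pos h6)
    have : (2 : ℤ) ^ a * 1 ≤ 2 ^ a * |A.det| := by gcongr
    linarith [hc l]
  have h8 : ((F.card + 1 : ℕ) : ℤ) ≤ 2 ^ F.card := by exact_mod_cast Nat.lt_two_pow_self
  push_cast at h8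
  calc |y l| ≤ 2 ^ a * 2 ^ F.card := h7.trans (by gcongr)
    _ ≤ _ := by rw [← pow_add]; exact pow_le_pow_right₀ one_le_two (by omega)

end Pool.Agent.Results.MP_80f852_al.Small
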